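import Mathlib
import Pool.Agent.Helper65_PN.Ver

/-!
# Squad PN: module CLD
-/

set_option autoImplicit false

universe u v w

open MvPolynomial

namespace Pool.Agent.PN.H21

open Pool.Agent.PN.H65

section deg

variable {V : Type*} {R : Type*} [CommRing R] (w : V → ℕ)

theorem deg_neg {d : ℕ} {P : MvPolynomial V R} (hP : Deg w d P) : Deg w d (-P) := by
  classical
  intro s hs
  refine hP s ?_
  rw [mem_support_iff] at hs ⊢
  rw [coeff_neg] at hs
  exact fun h => hs (by rw [h, neg_zero])

theorem deg_sub {d : ℕ} {P Q : MvPolynomial V R} (hP : Deg w d P) (hQ : Deg w d Q) :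
    Deg w d (P - Q) := by
  rw [sub_eq_add_neg]
  exact deg_add w hP (deg_neg w hQ)

/-- coefficients of products -/
theorem deg_coeff_mul {c d : ℕ → ℕ} {e : ℕ → ℕ} {f g : PowerSeries (MvPolynomial V R)}
    (hf : ∀ s, Deg w (c s) (PowerSeries.coeff s f)) (hg : ∀ s, Deg w (d s) (PowerSeries.coeff s g))
    (he : ∀ s t, c s + d t ≤ e (s + t)) (s : ℕ) :
    Deg w (e s) (PowerSeries.coeff s (f * g)) := by
  rw [PowerSeries.coeff_mul]
  refine deg_sum w _ _ fun p hp => ?_
  rw [Finset.HasAntidiagonal.mem_antidiagonal] at hp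
  refine deg_mono w ?_ (deg_mul w (hf p.1) (hg p.2))
  have h := he p.1 p.2
  rwa [hp] at h

end deg

variable {n N k : ℕ}

theorem deg_gen_dw (l l' : Fin n) (s : ℕ) :
    Deg (dw n N k l') 1 (PowerSeries.coeff s (gen l : PowerSeries (Pol n N k))) := by
  unfold gen
  rw [PowerSeries.coeff_mk]
  split_ifs with h
  · refine deg_mono _ ?_ (deg_X _ _)
    show (if l = l' then 1 else 0) ≤ 1
    split_ifs <;> omega
  · exact deg_zero _ _

theorem deg_gen_ww (l : Fin n) (s : ℕ) :
    Deg (ww n N k) s (PowerSeries.coeff s (gen l : PowerSeries (Pol n N k))) := by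
  unfold gen
  rw [PowerSeries.coeff_mk]
  split_ifs with h
  · exact deg_X _ _
  · exact deg_zero _ _

theorem deg_gen_pow_dw (l l' : Fin n) (r s : ℕ) :
    Deg (dw n N k l') r (PowerSeries.coeff s ((gen l : PowerSeries (Pol n N k)) ^ r)) := by
  induction r generalizing s with
  | zero =>
    rw [pow_zero, PowerSeries.coeff_one]
    split_ifs
    · exact deg_one _
    · exact deg_zero _ _
  | succ r ih =>
    rw [pow_succ]
    exact deg_coeff_mul (c := fun _ => r) (d := fun _ => 1) (e := fun _ => r + 1) _ ih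
      (deg_gen_dw l l') (fun _ _ => le_rfl) s

theorem deg_gen_pow_ww (l : Fin n) (r s : ℕ) :
    Deg (ww n N k) s (PowerSeries.coeff s ((gen l : PowerSeries (Pol n N k)) ^ r)) := by
  induction r generalizing s with
  | zero =>
    rw [pow_zero, PowerSeries.coeff_one]
    split_ifs
    · exact deg_mono _ (Nat.zero_le _) (deg_one _)
    · exact deg_zero _ _
  | succ r ih =>
    rw [pow_succ]
    exact deg_coeff_mul (c := fun s => s) (d := fun s => s) (e := fun s => s) _ ih
      (deg_gen_ww l) (fun _ _ => le_rfl) s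

theorem T_X (l : Fin n) (r : ℕ) (v : Sig n N k) : T l r (X v : Pol n N k) =
    Sum.elim (fun p => if p.1 = l then X (Sum.inl p) ^ r else 0)
      (fun p => if p.1 = l then PowerSeries.coeff (p.2 : ℕ) (gen l ^ r) else 0) v := by
  unfold T
  rw [mkDerivation_X]

theorem A_X (l : Fin n) (j : Fin N) (v : Sig n N k) : A l j (X v : Pol n N k) =
    Sum.elim (fun p => if p = (l, j) then (X (Sum.inr (l, 0)) - X (Sum.inl (l, j))) ^ (k + 1) else 0)
      (fun _ => 0) v := by
  unfold A
  rw [mkDerivation_X]

theorem cld (h : DgrStmt) : CldStmt := by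
  classical
  intro n N k d m P hd hm
  refine ⟨fun l r hr => ⟨fun l' => ?_, ?_⟩, fun l j => ⟨fun l' => ?_, ?_⟩⟩
  · refine h (dw n N k l') (T l r) (k + 1) ?_ d P (hd l')
    intro v
    rw [T_X]
    rcases v with p | p
    · show Deg _ _ (if p.1 = l then X (Sum.inl p) ^ r else 0)
      split_ifs
      · refine deg_mono _ ?_ (deg_pow _ (deg_X _ _) r)
        show r * 0 ≤ _
        rw [mul_zero]
        exact Nat.zero_le _
      · exact deg_zero _ _
    · show Deg _ _ (if p.1 = l then PowerSeries.coeff (p.2 : ℕ) (gen l ^ r) else 0)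
      split_ifs
      · exact deg_mono _ (by omega) (deg_gen_pow_dw l l' r p.2)
      · exact deg_zero _ _
  · have h1 := h (ww n N k) (T l r) 0 ?_ m P hm
    · exact h1
    · intro v
      rw [T_X]
      rcases v with p | p
      · show Deg _ _ (if p.1 = l then X (Sum.inl p) ^ r else 0)
        split_ifs
        · refine deg_mono _ ?_ (deg_pow _ (deg_X _ _) r)
          show r * 0 ≤ _
          rw [mul_zero]
          exact Nat.zero_le _
        · exact deg_zero _ _
      · show Deg _ _ (if p.1 = l then PowerSeries.coeff (p.2 : ℕ) (gen l ^ r) else 0)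
        split_ifs
        · exact deg_mono _ (by show (p.2 : ℕ) ≤ (p.2 : ℕ) + 0; omega) (deg_gen_pow_ww l r p.2)
        · exact deg_zero _ _
  · refine h (dw n N k l') (A l j) (k + 1) ?_ d P (hd l')
    intro v
    rw [A_X]
    rcases v with p | p
    · show Deg _ _ (if p = (l, j) then (X (Sum.inr (l, 0)) - X (Sum.inl (l, j))) ^ (k + 1) else 0)
      split_ifs
      · refine deg_mono _ ?_ (deg_pow _ (deg_sub _ (d := 1) (deg_mono _ ?_ (deg_X _ _))
          (deg_mono _ ?_ (deg_X _ _))) (k + 1))
        · omega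
        · show (if l = l' then 1 else 0) ≤ 1
          split_ifs <;> omega
        · exact Nat.zero_le _
      · exact deg_zero _ _
    · exact deg_zero _ _
  · have h1 := h (ww n N k) (A l j) 0 ?_ m P hm
    · exact h1
    · intro v
      rw [A_X]
      rcases v with p | p
      · show Deg _ _ (if p = (l, j) then (X (Sum.inr (l, 0)) - X (Sum.inl (l, j))) ^ (k + 1)
          else 0)
        split_ifs
        · refine deg_mono _ ?_ (deg_pow _ (deg_sub _ (d := 0) (deg_mono _ ?_ (deg_X _ _))
            (deg_mono _ ?_ (deg_X _ _))) (k + 1))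
          · omega
          · exact le_refl 0
          · exact le_refl 0
        · exact deg_zero _ _
      · exact deg_zero _ _

end Pool.Agent.PN.H21
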