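import Mathlib
import Pool.Agent.Helper21_PN.Cld

/-!
# Squad PN: module CLN
-/

set_option autoImplicit false

universe u v w

open MvPolynomial

noncomputable section

namespace Pool.Agent.PN.H21

section dual

variable {R : Type*} [CommRing R]

/-- the dual number with the two components `x`, `y` -/
def dn (x y : R) : DualNumber R := TrivSqZeroExt.inl x + TrivSqZeroExt.inr y

@[simp] theorem fst_dn (x y : R) : (dn x y).fst = x := by simp [dn]

@[simp] theorem snd_dn (x y : R) : (dn x y).snd = y := by simp [dn]

theorem dn_ext {z : DualNumber R} {x y : R} (h1 : z.fst = x) (h2 : z.snd = y) : z = dn x y :=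
  TrivSqZeroExt.ext (by rw [h1, fst_dn]) (by rw [h2, snd_dn])

theorem fst_mul' (x y : DualNumber R) : (x * y).fst = x.fst * y.fst := TrivSqZeroExt.fst_mul x y

theorem snd_mul' (x y : DualNumber R) : (x * y).snd = x.fst * y.snd + y.fst * x.snd := by
  rw [TrivSqZeroExt.snd_mul, smul_eq_mul, op_smul_eq_mul, mul_comm x.snd]

/-- evaluation in a commutative ring -/
def evI {σ : Type*} {S : Type*} [CommRing S] (v : σ → S) : MvPolynomial σ ℤ →ₐ[ℤ] S := aeval v

@[simp] theorem evI_X {σ : Type*} {S : Type*} [CommRing S] (v : σ → S) (s : σ) :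
    evI v (X s) = v s := aeval_X v s

/-- the Taylor expansion of order one along a derivation -/
theorem taylor_der {σ : Type*} (v : σ → R)
    (δ : Derivation ℤ (MvPolynomial σ ℤ) (MvPolynomial σ ℤ)) (P : MvPolynomial σ ℤ) :
    (evI (fun s => dn (v s) (evI v (δ (X s)))) P : DualNumber R) =
      dn (evI v P) (evI v (δ P)) := by
  induction P using MvPolynomial.induction_on with
  | C z =>
    have h : δ (C z : MvPolynomial σ ℤ) = 0 := by
      rw [← algebraMap_eq, Derivation.map_algebraMap]
    rw [h]
    apply dn_ext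
    · simp
    · simp
  | add p q hp hq =>
    rw [map_add, hp, hq]
    apply dn_ext
    · simp
    · simp only [TrivSqZeroExt.snd_add, snd_dn, map_add]
  | mul_X p n hp =>
    rw [map_mul, hp, evI_X]
    apply dn_ext
    · rw [fst_mul', fst_dn, fst_dn, map_mul, evI_X]
    · rw [snd_mul', fst_dn, snd_dn, fst_dn, snd_dn, Derivation.leibniz, map_add,
        smul_eq_mul, smul_eq_mul, map_mul, map_mul, evI_X]

/-- the embedding of the ring in the dual numbers -/
def io : R →+* DualNumber R := TrivSqZeroExt.inlHom R R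

theorem io_apply (x : R) : io x = dn x 0 := by
  apply dn_ext <;> simp [io]

/-- the infinitesimal element -/
def ep : DualNumber R := dn 0 1

theorem ep_mul_ep : (ep : DualNumber R) * ep = 0 := by
  apply TrivSqZeroExt.ext
  · rw [fst_mul', ep, fst_dn, mul_zero, TrivSqZeroExt.fst_zero]
  · rw [snd_mul', ep, fst_dn, snd_dn, zero_mul, add_zero, TrivSqZeroExt.snd_zero]

theorem dn_eq (x y : R) : dn x y = io x + ep * io y := by
  symm
  apply dn_ext
  · rw [TrivSqZeroExt.fst_add, fst_mul', io_apply, io_apply, ep, fst_dn, fst_dn, fst_dn, zero_mul,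
      add_zero]
  · rw [TrivSqZeroExt.snd_add, snd_mul', io_apply, io_apply, ep, fst_dn, snd_dn, snd_dn, fst_dn,
      snd_dn, mul_zero, zero_add, zero_add, mul_one]

theorem snd_io_mul (x : R) (y : DualNumber R) : (io x * y).snd = x * y.snd := by
  rw [snd_mul', io_apply, fst_dn, snd_dn, mul_zero, add_zero]

end dual

section eqk

variable {R : Type*} [CommRing R]

/-- equality of the coefficients up to order `k` -/
def Eqk (k : ℕ) (f g : PowerSeries R) : Prop :=
  ∀ s ≤ k, PowerSeries.coeff s f = PowerSeries.coeff s g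

theorem Eqk.mul {k : ℕ} {f g f' g' : PowerSeries R} (h : Eqk k f g) (h' : Eqk k f' g') :
    Eqk k (f * f') (g * g') := by
  intro s hs
  rw [PowerSeries.coeff_mul, PowerSeries.coeff_mul]
  refine Finset.sum_congr rfl fun p hp => ?_
  rw [Finset.HasAntidiagonal.mem_antidiagonal] at hp
  rw [h p.1 (by omega), h' p.2 (by omega)]

theorem Eqk.refl (k : ℕ) (f : PowerSeries R) : Eqk k f f := fun _ _ => rfl

theorem Eqk.add {k : ℕ} {f g f' g' : PowerSeries R} (h : Eqk k f g) (h' : Eqk k f' g') :
    Eqk k (f + f') (g + g') := by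
  intro s hs
  rw [map_add, map_add, h s hs, h' s hs]

theorem Eqk.pow {k : ℕ} {f g : PowerSeries R} (h : Eqk k f g) (r : ℕ) :
    Eqk k (f ^ r) (g ^ r) := by
  induction r with
  | zero =>
    rw [pow_zero, pow_zero]
    exact Eqk.refl k 1
  | succ r ih =>
    rw [pow_succ, pow_succ]
    exact ih.mul h

theorem Eqk.map {S : Type*} [CommRing S] (φ : R →+* S) {k : ℕ} {f g : PowerSeries R}
    (h : Eqk k f g) : Eqk k (PowerSeries.map φ f) (PowerSeries.map φ g) := by
  intro s hs
  rw [PowerSeries.coeff_map, PowerSeries.coeff_map, h s hs]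

end eqk

variable {n N k : ℕ}

/-- the values of the powers of the generic series -/
theorem evP_gen_pow {R : Type*} [CommRing R] (a : Fin n → Fin N → R) (x : Fin n → PowerSeries R)
    (l : Fin n) (r s : ℕ) (hs : s ≤ k) :
    evP a x (PowerSeries.coeff s ((gen l : PowerSeries (Pol n N k)) ^ r)) =
      PowerSeries.coeff s (x l ^ r) := by
  have h : Eqk k (PowerSeries.map (evP a x : Pol n N k →ₐ[ℤ] R).toRingHom (gen l)) (x l) := by
    intro s hs
    rw [PowerSeries.coeff_map]
    unfold gen
    rw [PowerSeries.coeff_mk, dif_pos (Nat.lt_succ_of_le hs)]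
    show aeval (vals a x) (X (Sum.inr (l, ⟨s, Nat.lt_succ_of_le hs⟩))) = _
    rw [aeval_X]
    rfl
  have h1 := h.pow r s hs
  rw [← map_pow, PowerSeries.coeff_map] at h1
  exact h1

section main

variable {R : Type*} [CommRing R]

/-- the perturbed parameters -/
def pa (a : Fin n → Fin N → R) (l : Fin n) (r : ℕ) : Fin n → Fin N → DualNumber R :=
  fun i j => io (a i j) + ep * (if i = l then io (a i j) ^ r else 0)

/-- the perturbed series -/
def px (x : Fin n → PowerSeries R) (l : Fin n) (r : ℕ) : Fin n → PowerSeries (DualNumber R) :=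
  fun i => PowerSeries.map io (x i) +
    PowerSeries.C ep * (if i = l then PowerSeries.map io (x i) ^ r else 0)

theorem evP_px (a : Fin n → Fin N → R) (x : Fin n → PowerSeries R) (l : Fin n) (r : ℕ)
    (P : Pol n N k) : evP (pa a l r) (px x l r) P = dn (evP a x P) (evP a x (T l r P)) := by
  show evI (vals (pa a l r) (px x l r)) P = dn (evI (vals a x) P) (evI (vals a x) (T l r P))
  rw [← taylor_der]
  have h : (vals (pa a l r) (px x l r) : Sig n N k → DualNumber R) =
      fun s => dn (vals a x s) (evI (vals a x) (T l r (X s : Pol n N k))) := by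
    funext s
    rw [T_X]
    rcases s with p | p
    · show io (a p.1 p.2) + ep * (if p.1 = l then io (a p.1 p.2) ^ r else 0) =
        dn (a p.1 p.2) (evI (vals a x) (if p.1 = l then (X (Sum.inl p) : Pol n N k) ^ r else 0))
      rw [dn_eq]
      split_ifs with h
      · rw [map_pow (evI (vals a x)), evI_X, map_pow io]
        rfl
      · rw [map_zero (evI (vals a x)), map_zero io]
    · show PowerSeries.coeff (p.2 : ℕ) (px x l r p.1) = dn (PowerSeries.coeff (p.2 : ℕ) (x p.1))
        (evI (vals a x) (if p.1 = l then PowerSeries.coeff (p.2 : ℕ)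
          ((gen l : PowerSeries (Pol n N k)) ^ r) else 0))
      rw [dn_eq, px, map_add, PowerSeries.coeff_map, PowerSeries.coeff_C_mul]
      split_ifs with h
      · have h1 := evP_gen_pow a x l r p.2 (Nat.le_of_lt_succ p.2.2)
        have h2 : evI (vals a x) (PowerSeries.coeff (p.2 : ℕ)
            ((gen l : PowerSeries (Pol n N k)) ^ r)) = PowerSeries.coeff (p.2 : ℕ) (x l ^ r) := h1
        rw [h2, ← h, ← map_pow, PowerSeries.coeff_map]
      · rw [map_zero (evI (vals a x)), map_zero io, map_zero]
  rw [h]

theorem ep_mul (x y : PowerSeries (DualNumber R)) :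
    (PowerSeries.C ep * x) * (PowerSeries.C ep * y) = 0 := by
  have h : (PowerSeries.C (ep : DualNumber R)) * PowerSeries.C ep = 0 := by
    rw [← map_mul, ep_mul_ep, map_zero]
  calc _ = (PowerSeries.C (ep : DualNumber R)) * PowerSeries.C ep * (x * y) := by ring
    _ = 0 := by rw [h, zero_mul]

end main

theorem cln : ClnStmt.{u} := by
  classical
  intro n N k m' P hP l r I i₀ j hi₀ hmin hI R _ a x η hη
  -- the quotients
  have hq : ∀ i, ∃ q : PowerSeries (DualNumber R), px x l r i - PowerSeries.C (pa a l r i (j i)) =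
      (PowerSeries.map io (x i) - PowerSeries.C (io (a i (j i)))) * (1 + PowerSeries.C ep * q) := by
    intro i
    by_cases h : i = l
    · obtain ⟨q, hq⟩ := sub_dvd_pow_sub_pow (PowerSeries.map io (x i))
        (PowerSeries.C (io (a i (j i)))) r
      refine ⟨q, ?_⟩
      rw [px, pa, if_pos h, if_pos h, map_add, map_mul, map_pow]
      linear_combination (PowerSeries.C ep) * hq
    · refine ⟨0, ?_⟩
      rw [px, pa, if_neg h, if_neg h, mul_zero, mul_zero, add_zero, add_zero, add_zero, mul_one]
  choose q hq using hq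
  have h1 := hP I i₀ j hi₀ hmin hI (DualNumber R) (pa a l r) (px x l r)
    (fun i => PowerSeries.map io (η i) * (1 + PowerSeries.C ep * q i) *
      (1 - PowerSeries.C ep * q i₀)) (by
    intro i hi hne
    have h2 : Eqk k (x i) (PowerSeries.C (a i (j i)) + η i *
        (x i₀ - PowerSeries.C (a i₀ (j i₀)))) := hη i hi hne
    have h3 := h2.map (io : R →+* DualNumber R)
    have h4 : Eqk k (PowerSeries.map io (x i) - PowerSeries.C (io (a i (j i))))
        (PowerSeries.map io (η i) * (PowerSeries.map io (x i₀) -
          PowerSeries.C (io (a i₀ (j i₀))))) := by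
      intro s hs
      have h5 := h3 s hs
      rw [map_add, map_mul, map_sub, PowerSeries.map_C, PowerSeries.map_C, map_add] at h5
      rw [map_sub, h5, add_sub_cancel_left]
    have h6 := (h4.mul (Eqk.refl k (1 + PowerSeries.C ep * q i)))
    have h7 : Eqk k (px x l r i) (PowerSeries.C (pa a l r i (j i)) +
        PowerSeries.map io (η i) * (PowerSeries.map io (x i₀) -
          PowerSeries.C (io (a i₀ (j i₀)))) * (1 + PowerSeries.C ep * q i)) := by
      intro s hs
      have h8 := h6 s hs
      rw [← hq, map_sub, sub_eq_iff_eq_add'] at h8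
      rw [h8, map_add]
    have h9 : PowerSeries.map io (η i) * (1 + PowerSeries.C ep * q i) *
        (1 - PowerSeries.C ep * q i₀) * (px x l r i₀ - PowerSeries.C (pa a l r i₀ (j i₀))) =
        PowerSeries.map io (η i) * (PowerSeries.map io (x i₀) -
          PowerSeries.C (io (a i₀ (j i₀)))) * (1 + PowerSeries.C ep * q i) := by
      rw [hq i₀]
      have h10 := ep_mul (q i₀) (q i₀)
      linear_combination (-(PowerSeries.map io (η i)) * (1 + PowerSeries.C ep * q i) *
        (PowerSeries.map io (x i₀) - PowerSeries.C (io (a i₀ (j i₀))))) * h10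
    intro s hs
    rw [h9]
    exact h7 s hs)
  -- the divisor
  have h11 : PowerSeries.constantCoeff (px x l r i₀) - pa a l r i₀ (j i₀) =
      io (PowerSeries.constantCoeff (x i₀) - a i₀ (j i₀)) *
        (1 + ep * PowerSeries.constantCoeff (q i₀)) := by
    have h12 := congrArg PowerSeries.constantCoeff (hq i₀)
    rw [map_sub, PowerSeries.constantCoeff_C, map_mul, map_sub, PowerSeries.constantCoeff_C,
      map_add, map_mul, map_one, PowerSeries.constantCoeff_C] at h12
    rw [h12, map_sub, ← PowerSeries.coeff_zero_eq_constantCoeff_apply, PowerSeries.coeff_map,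
      PowerSeries.coeff_zero_eq_constantCoeff_apply]
  rw [h11, evP_px, mul_pow, ← map_pow] at h1
  obtain ⟨y, hy⟩ := h1
  have h13 := congrArg TrivSqZeroExt.snd hy
  rw [mul_assoc, snd_dn, snd_io_mul] at h13
  exact ⟨_, h13⟩

end Pool.Agent.PN.H21
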